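import Mathlib
import Pool.Agent.Q325.ShFin

set_option autoImplicit false

namespace Pool.Agent.Results.MP_435b2a_lc.EqualityUndecidable

open Pool.Agent.Q325.Sh

/-- Equality of a regular language with the shuffle of a regular language and a language accepted
by a deterministic machine with one `1`-reversal-bounded counter is undecidable. There are a fixed
finite alphabet `Alph k`, a fixed deterministic finite automaton `D` and a fixed deterministic
one-counter machine `M` which reads one letter in each step, accepts by final state and whose
counter makes at most one reversal, such that no algorithm decides, given a deterministic finite
automaton `D₁`, whether the language of `D` is equal to the shuffle of the languages of `D₁`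
and `M`. -/
theorem result : ∃ (k : ℕ) (D : Code (Alph k)) (M : Machine (Alph k)), M.OneReversal ∧
    ¬ ComputablePred (fun D₁ : Code (Alph k) => D.lang = shuffle D₁.lang M.lang) :=
  equality

end Pool.Agent.Results.MP_435b2a_lc.EqualityUndecidable
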